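import Pool.Agent.Helper97_K9.NZB
import Pool.Agent.Helper20_PP.Rst

/-!
# Squad K9, module NZR
-/

open scoped BigOperators

noncomputable section

namespace Pool.Agent.PP.K9.H97

open Pool.Agent.Helper51_AWC Pool.Agent.Helper79_WRA Pool.Agent.PP Pool.Agent.PP.KF
open Pool.Agent.PP.H75

attribute [local instance] Ideal.Quotient.field

section transfer

variable {F G : Type} [Field F] [Group G] [Finite G] {C V : Subgroup G}

omit [Finite G] in
/-- the centraliser of a subgroup of `C` in `C` -/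
theorem cent_sub (hVC : V ≤ C) (t : C) :
    t ∈ Subgroup.centralizer ((V.subgroupOf C : Subgroup C) : Set C) ↔
      (t : G) ∈ Subgroup.centralizer (V : Set G) := by
  rw [Subgroup.mem_centralizer_iff, Subgroup.mem_centralizer_iff]
  constructor
  · intro h v hv
    exact congrArg Subtype.val (h ⟨v, hVC hv⟩ hv)
  · intro h v hv
    exact Subtype.ext (h v hv)

omit [Finite G] in
theorem br_ext0 (hVC : V ≤ C) (b : C → F) (t : C) :
    br V (PP.ext0 C b) (t : G) = br (V.subgroupOf C) b t := by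
  by_cases ht : (t : G) ∈ Subgroup.centralizer (V : Set G)
  · rw [H66.br_of_mem ht, H66.br_of_mem ((cent_sub hVC t).2 ht), H46.ext0_of_mem _ t.2]
  · rw [H66.br_of_not_mem ht, H66.br_of_not_mem (fun h => ht ((cent_sub hVC t).1 h))]

omit [Finite G] in
theorem norm_sub (hVC : V ≤ C) : (Subgroup.normalizer (V : Set G) ⊓ C).subgroupOf C =
    Subgroup.normalizer ((V.subgroupOf C : Subgroup C) : Set C) := by
  ext t
  rw [Subgroup.mem_subgroupOf, Subgroup.mem_normalizer_iff]
  constructor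
  · rintro ⟨h, -⟩ v
    exact Subgroup.mem_normalizer_iff.1 h v
  · intro h
    refine ⟨?_, t.2⟩
    change (t : G) ∈ Subgroup.normalizer (V : Set G)
    rw [Subgroup.mem_normalizer_iff]
    intro v
    constructor
    · intro hv
      exact (h ⟨v, hVC hv⟩).1 hv
    · intro hv
      have h1 : v ∈ C := by
        have h2 := C.mul_mem (C.mul_mem (C.inv_mem t.2) (hVC hv)) t.2
        have e : (t : G)⁻¹ * (t * v * (t : G)⁻¹) * t = v := by group
        rwa [e] at h2
      exact (h ⟨v, h1⟩).2 hv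

omit [Finite G] in
/-- transfer of the block of the normaliser -/
theorem bx_of (hVC : V ≤ C) (hXC : Subgroup.centralizer (V : Set G) ≤ C)
    (hXN : Subgroup.centralizer (V : Set G) ≤ Subgroup.normalizer (V : Set G)) {b : C → F}
    (h : IsBlk (fun t : Subgroup.normalizer ((V.subgroupOf C : Subgroup C) : Set C) =>
      br (V.subgroupOf C) b t)) :
    Bx (Subgroup.normalizer (V : Set G) ⊓ C) (br V (PP.ext0 C b)) := by
  refine ⟨fun x hx => H66.br_of_not_mem (fun h => hx ⟨hXN h, hXC h⟩), ?_⟩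
  let φ : ↥(Subgroup.normalizer (V : Set G) ⊓ C) ≃*
      ↥(Subgroup.normalizer ((V.subgroupOf C : Subgroup C) : Set C)) :=
    (Subgroup.subgroupOfEquivOfLe (inf_le_right)).symm.trans
      (MulEquiv.subgroupCongr (norm_sub hVC))
  have h1 := H20.IsBlk_equiv φ h
  have h2 : (fun t : ↥(Subgroup.normalizer (V : Set G) ⊓ C) => br V (PP.ext0 C b) t) =
      fun t => br (V.subgroupOf C) b ((φ t : Subgroup.normalizer
        ((V.subgroupOf C : Subgroup C) : Set C)) : C) := by
    funext t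
    exact br_ext0 hVC b ⟨t, t.2.2⟩
  rw [h2]
  exact h1

end transfer

/-- NZR -/
theorem nzr (fmg : FmgStmt) (_orb : K9.OrbStmt) (inx : InxStmt) : NzrStmt := by
  intro ℓ _ M _ hM G _ _ e he V hT hab u hu b hb heb hgb w hw χ hχ h0
  have hF : GoodF ℓ (FF M) := H50.fld ℓ Fact.out M hM
  have hVC : V ≤ Cu u := fun v hv => Subgroup.mem_centralizer_singleton_iff.2 (hab v hv u hu)
  have hXC : Subgroup.centralizer (V : Set G) ≤ Cu u := fun g hg =>
    Subgroup.mem_centralizer_singleton_iff.2 (Subgroup.mem_centralizer_iff.1 hg u hu).symm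
  have hwV : w ∈ V := (Subgroup.zpowers_le.2 hu) hw
  have hwC : ∀ c ∈ Cu u, c * w = w * c := by
    intro c hc
    obtain ⟨k, rfl⟩ := Subgroup.mem_zpowers_iff.1 hw
    exact (Commute.zpow_right (show Commute c u from
      Subgroup.mem_centralizer_singleton_iff.1 hc) k).eq
  have hXN : Subgroup.centralizer (V : Set G) ≤ Subgroup.normalizer (V : Set G) := by
    intro g hg
    rw [Subgroup.mem_normalizer_iff]
    intro v
    have h1 := Subgroup.mem_centralizer_iff.1 hg
    constructor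
    · intro hv
      rw [← h1 v hv, mul_inv_cancel_right]
      exact hv
    · intro hv
      have h2 := h1 _ hv
      have h3 : g * v = g * (g * v * g⁻¹) := by
        rw [← h2]
        group
      rw [mul_left_cancel h3]
      exact hv
  have hB : Ix (Cu u) (PP.ext0 (Cu u) b) := by
    refine ⟨fun x hx => H46.ext0_of_not_mem _ hx, ?_⟩
    rw [H46.restr_ext0]
    exact hb.1
  have heC : IsCl (fun t : Cu u => e t) := fun x y => he.1.1 x y
  have hVcard : Nat.card (V.subgroupOf (Cu u)) = Nat.card V :=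
    Nat.card_congr (Subgroup.subgroupOfEquivOfLe hVC).toEquiv
  have hVp : IsPGroup ℓ (V.subgroupOf (Cu u)) :=
    hT.pg.of_equiv (Subgroup.subgroupOfEquivOfLe hVC).symm
  -- `V` is a defect group of `b`
  have hTb : Tp ℓ b (V.subgroupOf (Cu u)) := by
    refine ⟨hVp, hgb, ?_⟩
    intro Q hQ hQb
    have h1 := gd_map (gd_of_mul hF heC hb.1.1 heb hQ hQb)
    have hcard : Nat.card (Q.map (Cu u).subtype) = Nat.card Q :=
      (Nat.card_congr (Q.equivMapOfInjective (Cu u).subtype
        (Cu u).subtype_injective).toEquiv).symm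
    have h2 := hT.mx _ (hQ.map (Cu u).subtype) h1
    rw [hcard] at h2
    rw [hVcard]
    exact h2
  obtain ⟨hf1, ⟨hf2, -⟩, -⟩ := fmg ℓ M hM (Cu u) b hb _ hTb
  have hbx := bx_of hVC hXC hXN hf2
  set B := PP.ext0 (Cu u) b with hBdef
  -- conjugates of `V` in the centraliser of `u`
  have hgood : ∀ t : G, (∀ v ∈ V, t⁻¹ * v * t ∈ Cu u) →
      (∃ x, (∀ v ∈ V, x * (t⁻¹ * v * t) = t⁻¹ * v * t * x) ∧ B x ≠ 0) →
      ∃ c ∈ Cu u, t * c ∈ Subgroup.normalizer (V : Set G) := by
    rintro t ht ⟨x, hx1, hx2⟩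
    have hxC : x ∈ Cu u := by
      by_contra h
      exact hx2 (hB.supp x h)
    set Q : Subgroup (Cu u) := (conjS t⁻¹ V).subgroupOf (Cu u) with hQ
    have hQC : conjS t⁻¹ V ≤ Cu u := by
      intro y hy
      rw [mem_conjS, inv_inv] at hy
      have := ht _ hy
      rwa [show t⁻¹ * (t * y * t⁻¹) * t = y by group] at this
    have hQp : IsPGroup ℓ Q :=
      (hT.pg.map (MulAut.conj t⁻¹).toMonoidHom).of_equiv (Subgroup.subgroupOfEquivOfLe hQC).symm
    have hQg : Gd b Q := by
      refine ⟨⟨x, hxC⟩, ?_, ?_⟩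
      · rw [Subgroup.mem_centralizer_iff]
        intro y hy
        have hy' : (y : G) ∈ conjS t⁻¹ V := hy
        rw [mem_conjS, inv_inv] at hy'
        have h3 := hx1 _ hy'
        rw [show t⁻¹ * (t * (y : G) * t⁻¹) * t = y by group] at h3
        exact Subtype.ext h3.symm
      · rw [hBdef, H46.ext0_of_mem _ hxC] at hx2
        exact hx2
    obtain ⟨c, hc⟩ := hf1 Q hQp hQg
    refine ⟨c, c.2, ?_⟩
    -- `(t c)⁻¹ V (t c) ≤ V`
    have h4 : ∀ v ∈ V, (t * (c : G))⁻¹ * v * (t * c) ∈ V := by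
      intro v hv
      have h5 : (⟨t⁻¹ * v * t, ht v hv⟩ : Cu u) ∈ Q := by
        change t⁻¹ * v * t ∈ conjS t⁻¹ V
        rw [mem_conjS, inv_inv, show t * (t⁻¹ * v * t) * t⁻¹ = v by group]
        exact hv
      have h6 := hc h5
      rw [mem_conjS] at h6
      have h7 : (c : G)⁻¹ * (t⁻¹ * v * t) * c ∈ V := h6
      rwa [show (t * (c : G))⁻¹ * v * (t * c) = (c : G)⁻¹ * (t⁻¹ * v * t) * c by group]
    have h8 : (t * (c : G))⁻¹ ∈ Subgroup.normalizer (V : Set G) := by
      have h9 : conjS (t * (c : G))⁻¹ V = V := by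
        apply Subgroup.eq_of_le_of_card_ge
        · intro y hy
          rw [mem_conjS, inv_inv] at hy
          have := h4 _ hy
          rwa [show (t * (c : G))⁻¹ * (t * c * y * (t * (c : G))⁻¹) * (t * c) = y by group]
            at this
        · exact (Nat.card_congr (V.equivMapOfInjective (MulAut.conj (t * (c : G))⁻¹).toMonoidHom
            (MulAut.conj (t * (c : G))⁻¹).injective).toEquiv).le
      rw [Subgroup.mem_normalizer_iff]
      intro v
      conv_rhs => rw [← h9]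
      rw [mem_conjS, inv_inv]
      rw [show t * (c : G) * ((t * (c : G))⁻¹ * v * (t * c)) * (t * (c : G))⁻¹ = v by group]
    have := inv_mem h8
    rwa [inv_inv] at this
  -- `br V e * br V B = br V B`
  have heB : mulF (br V e) (br V B) = br V B := by
    set E : G → FF M := PP.ext0 (Cu u) (fun t : Cu u => e t) with hE
    have hEinv : H66.Inv V E := by
      intro p hp t
      by_cases ht : t ∈ Cu u
      · have ht' : p * t * p⁻¹ ∈ Cu u :=
          (Cu u).mul_mem ((Cu u).mul_mem (hVC hp) ht) ((Cu u).inv_mem (hVC hp))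
        rw [hE, H46.ext0_of_mem _ ht, H46.ext0_of_mem _ ht']
        exact he.1.1 t p
      · rw [hE, H46.ext0_of_not_mem _ ht, H46.ext0_of_not_mem]
        intro h
        apply ht
        have h2 := (Cu u).mul_mem ((Cu u).mul_mem ((Cu u).inv_mem (hVC hp)) h) (hVC hp)
        rwa [show p⁻¹ * (p * t * p⁻¹) * p = t by group] at h2
    have hBinv : H66.Inv V B := fun p hp => (cj_eq_iff p B).1 (hB.inv (hVC hp))
    have hEB : mulF E B = B := by
      have hEs : ∀ x, x ∉ Cu u → E x = 0 := fun x hx => H46.ext0_of_not_mem _ hx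
      apply eq_of_res (mulF_supp (Cu u) hEs hB.supp) hB.supp
      rw [mulF_res (Cu u) B hEs, hE, hBdef, H46.restr_ext0, H46.restr_ext0]
      exact heb
    have h1 := H66.br_mulF hF hT.pg hEinv hBinv
    rw [hEB] at h1
    have h2 : br V E = br V e := by
      funext g
      by_cases hg : g ∈ Subgroup.centralizer (V : Set G)
      · rw [H66.br_of_mem hg, H66.br_of_mem hg, hE, H46.ext0_of_mem _ (hXC hg)]
      · rw [H66.br_of_not_mem hg, H66.br_of_not_mem hg]
    rw [h2] at h1
    exact h1.symm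
  -- a block of the centraliser of `V`
  have hbI : IsIdem (fun t : Subgroup.centralizer (V : Set G) => br V B t) := by
    refine ⟨fun x y => hbx.blk.1.1 ⟨x, ⟨hXN x.2, hXC x.2⟩⟩ ⟨y, ⟨hXN y.2, hXC y.2⟩⟩, ?_⟩
    rw [← mulF_res (Subgroup.centralizer (V : Set G)) _ (fun x hx => H66.br_of_not_mem hx),
      hbx.mul]
  obtain ⟨g₀, hg₀, hg₀'⟩ := hgb
  have hg₁ := (cent_sub hVC g₀).1 hg₀
  obtain ⟨γ₀, hγ₀, hγ₁, -⟩ := H69.exists_blk hbI (g := ⟨g₀, hg₁⟩) (by
    change br V B (g₀ : G) ≠ 0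
    rw [H66.br_of_mem hg₁, hBdef, H46.ext0_of_mem _ g₀.2]
    exact hg₀')
  set γ := H75.ext0 (Subgroup.centralizer (V : Set G)) γ₀ with hγdef
  have hγr : (fun t : Subgroup.centralizer (V : Set G) => γ t) = γ₀ :=
    funext (ext0_apply _ γ₀)
  have hγ : Bx (Subgroup.centralizer (V : Set G)) γ := by
    refine ⟨ext0_supp _ γ₀, ?_⟩
    rw [hγr]
    exact hγ₀
  have hbs : ∀ x, x ∉ Subgroup.centralizer (V : Set G) → br V B x = 0 := fun x hx =>
    H66.br_of_not_mem hx
  have h1 : mulF (br V B) γ = γ := by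
    apply eq_of_res (mulF_supp _ hbs hγ.supp) hγ.supp
    rw [mulF_res _ γ hbs, hγr]
    exact hγ₁
  have h2 : mulF (br V e) γ = γ := by
    conv_lhs => rw [← h1, ← mulF_assoc, heB]
    exact h1
  have hinx := inx ℓ M hM G e he V hT hab γ hγ.supp hγ.blk h2
  -- the trace
  have hz : trc (Cu u) w b = tsm (Cu u) (fun x => B (w⁻¹ * x)) := rfl
  have hzC : ∀ c ∈ Cu u, cj c (fun x => B (w⁻¹ * x)) = fun x => B (w⁻¹ * x) := by
    intro c hc
    funext x
    change B (w⁻¹ * (c⁻¹ * x * c)) = B (w⁻¹ * x)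
    have h2 := (cj_eq_iff c B).1 (hB.inv hc) (w⁻¹ * (c⁻¹ * x * c))
    rw [← h2]
    congr 1
    have h4 : c * w⁻¹ = w⁻¹ * c := (show Commute c w from hwC c hc).inv_right.eq
    calc c * (w⁻¹ * (c⁻¹ * x * c)) * c⁻¹ = (c * w⁻¹) * (c⁻¹ * x) := by group
      _ = w⁻¹ * x := by rw [h4]; group
  have hzcl : IsCl (trc (Cu u) w b) := by
    rw [hz]
    exact tsm_cl hzC
  obtain ⟨n, hn⟩ := H50.nil_of_zero he hzcl (H50.isChar_res hχ.1) hχ.2 h0
  have h3 := (br_iter hF hT.pg (H66.IsCl.inv hzcl V) (H66.IsCl.inv he.1.1 V) n).2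
  rw [hn] at h3
  have h4 : br V (0 : G → FF M) = 0 := by
    funext g
    by_cases hg : g ∈ Subgroup.centralizer (V : Set G)
    · rw [H66.br_of_mem hg]
    · rw [H66.br_of_not_mem hg]
      rfl
  rw [h4] at h3
  have h5 := congrArg ma h3
  rw [ma_zero, ma_iterate] at h5
  have h6 : ma (br V (trc (Cu u) w b)) ^ n * ma γ = 0 := by
    conv_lhs => rw [← h2, ma_mul, ← mul_assoc, ← h5, zero_mul]
  exact nzr_core hF hT.pg hab hVC hXC hB hwV hwC hgood hγ h1 hbx hinx n h6

end Pool.Agent.PP.K9.H97
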