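import Pool.Agent.Helper97_K9.Tools

/-!
# Squad K9, module ORB: blocks of a normal subgroup under the same block are conjugate
-/

open scoped BigOperators

noncomputable section

namespace Pool.Agent.PP.K9.H97

open Pool.Agent.Helper51_AWC Pool.Agent.Helper79_WRA Pool.Agent.PP Pool.Agent.PP.KF
open Pool.Agent.PP.H75

section orb

variable {F G : Type} [Field F] [Group G] [Finite G]

theorem orb_main {N X : Subgroup G} (hXN : X ≤ N) (hN : N ≤ Subgroup.normalizer (X : Set G))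
    {f γ γ' : G → F} (hf : Bx N f) (hg : Bx X γ) (hg' : Bx X γ') (h1 : mulF f γ = γ)
    (h2 : mulF f γ' = γ') : ∃ n ∈ N, γ' = cj n γ := by
  classical
  have := Fintype.ofFinite N
  -- the conjugates
  set S : Finset (G → F) := Finset.univ.image (fun n : N => cj (n : G) γ) with hS
  have hmem : ∀ a, a ∈ S ↔ ∃ n ∈ N, a = cj n γ := by
    intro a
    rw [hS, Finset.mem_image]
    constructor
    · rintro ⟨n, -, rfl⟩
      exact ⟨n, n.2, rfl⟩
    · rintro ⟨n, hn, rfl⟩
      exact ⟨⟨n, hn⟩, Finset.mem_univ _, rfl⟩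
  have hBx : ∀ a ∈ S, Bx X a := by
    intro a ha
    obtain ⟨n, hn, rfl⟩ := (hmem a).1 ha
    exact hg.cj (hN hn)
  have hfa : ∀ a ∈ S, mulF f a = a := by
    intro a ha
    obtain ⟨n, hn, rfl⟩ := (hmem a).1 ha
    have e1 := congrArg (cj n) h1
    rw [cj_mulF, hf.ix.inv hn] at e1
    exact e1
  have hγS : γ ∈ S := (hmem γ).2 ⟨1, N.one_mem, (cj_one γ).symm⟩
  set s : G → F := ∑ a ∈ S, a with hs
  have hsma : ma s = ∑ a ∈ S, ma a := by rw [hs, ma_sum]
  have hsa : ∀ a ∈ S, mulF s a = a := by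
    intro a ha
    apply ma_injective
    rw [ma_mul, hsma, Finset.sum_mul, Finset.sum_eq_single a]
    · rw [← ma_mul, (hBx a ha).mul]
    · intro c hc hne
      rw [← ma_mul]
      rcases (hBx c hc).dich (hBx a ha) with h3 | h3
      · exact absurd h3 hne
      · rw [h3, ma_zero]
    · intro h'
      exact absurd ha h'
  have hss : mulF s s = s := by
    apply ma_injective
    rw [ma_mul]
    conv_lhs => rw [hsma]
    rw [← hsma, hsma, Finset.mul_sum]
    apply Finset.sum_congr rfl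
    intro a ha
    rw [← hsma, ← ma_mul, hsa a ha]
  have hfs : mulF f s = s := by
    apply ma_injective
    rw [ma_mul, hsma, Finset.mul_sum]
    apply Finset.sum_congr rfl
    intro a ha
    rw [← ma_mul, hfa a ha]
  have hsX : ∀ x, x ∉ X → s x = 0 := by
    intro x hx
    rw [hs, Finset.sum_apply]
    exact Finset.sum_eq_zero fun a ha => (hBx a ha).supp x hx
  have hsN : ∀ x, x ∉ N → s x = 0 := fun x hx => hsX x (fun h => hx (hXN h))
  have hsc : ∀ n ∈ N, ∀ x, s (n * x * n⁻¹) = s x := by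
    intro n hn x
    rw [hs, Finset.sum_apply, Finset.sum_apply]
    symm
    apply Finset.sum_bij (fun a _ => cj n a)
    · intro a ha
      obtain ⟨m, hm, rfl⟩ := (hmem a).1 ha
      rw [hmem, cj_cj]
      exact ⟨n * m, N.mul_mem hn hm, rfl⟩
    · intro a _ a' _ h'
      have := congrArg (cj n⁻¹) h'
      rwa [cj_inv_cj, cj_inv_cj] at this
    · intro a ha
      obtain ⟨m, hm, rfl⟩ := (hmem a).1 ha
      refine ⟨cj (n⁻¹ * m) γ, (hmem _).2 ⟨n⁻¹ * m, N.mul_mem (N.inv_mem hn) hm, rfl⟩, ?_⟩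
      rw [cj_cj, mul_inv_cancel_left]
    · intro a _
      rw [cj]
      congr 1
      group
  have hsI : Ix N s := by
    refine ⟨hsN, ?_, ?_⟩
    · intro x y
      exact hsc y y.2 x
    · rw [← mulF_res N s hsN, hss]
  -- `s = f`
  have hsf : s = f := by
    rcases hf.dich' hsI with h3 | h3
    · rw [← h3, hfs]
    · exfalso
      apply hg.ne
      have h4 : s = 0 := by rw [← hfs, h3]
      rw [← hsa γ hγS, h4, mulF_zero_left]
  -- a conjugate which does not annihilate `γ'`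
  by_contra hcon
  apply hg'.ne
  rw [← h2, ← hsf]
  apply ma_injective
  rw [ma_mul, hsma, Finset.sum_mul, ma_zero]
  apply Finset.sum_eq_zero
  intro a ha
  rw [← ma_mul]
  rcases (hBx a ha).dich hg' with h3 | h3
  · exfalso
    obtain ⟨n, hn, hn'⟩ := (hmem a).1 ha
    exact hcon ⟨n, hn, by rw [← h3, hn']⟩
  · rw [h3, ma_zero]

end orb

/-- ORB -/
theorem orb : K9.OrbStmt := by
  intro ℓ F _ hF G _ _ N X hXN hN f hf hfb γ γ' hγ hγ' hb hb' h1 h2
  obtain ⟨n, hn, h⟩ := orb_main hXN hN ⟨fun x hx => hf x (fun h => hx (hXN h)), hfb⟩ ⟨hγ, hb⟩ ⟨hγ', hb'⟩ h1 h2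
  refine ⟨n⁻¹, N.inv_mem hn, fun x => ?_⟩
  rw [h, cj, inv_inv]

end Pool.Agent.PP.K9.H97
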