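import Pool.Agent.Helper97_K9.ORB
import Pool.Agent.Helper69_KF.K4
import Pool.Agent.Helper74_PP.Brt

/-!
# Squad K9, module NZR, part 1
-/

open scoped BigOperators

noncomputable section

namespace Pool.Agent.PP.K9.H97

open Pool.Agent.Helper51_AWC Pool.Agent.Helper79_WRA Pool.Agent.PP Pool.Agent.PP.KF
open Pool.Agent.PP.H75

section unit

variable {F G : Type} [Field F] [Group G] [Finite G]

theorem ma_dl_mul (a b : G) : ma (dl F a) * ma (dl F b) = ma (dl F (a * b)) := by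
  rw [ma_dl, ma_dl, ma_dl, MonoidAlgebra.single_mul_single, mul_one]

theorem ma_dl_one : ma (dl F (1 : G)) = 1 := by
  rw [ma_dl, MonoidAlgebra.one_def]

theorem ma_dl_pow (a : G) (n : ℕ) : ma (dl F a) ^ n = ma (dl F (a ^ n)) := by
  induction n with
  | zero => rw [pow_zero, pow_zero, ma_dl_one]
  | succ n ih => rw [pow_succ, ih, ma_dl_mul, pow_succ]

/-- a sum of elements of an abelian `ℓ`-group is invertible if the number of summands is prime
to `ℓ` -/
theorem unit_sum {ℓ : ℕ} (hF : GoodF ℓ F) {V : Subgroup G} (hV : IsPGroup ℓ V)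
    (hab : ∀ a ∈ V, ∀ b ∈ V, a * b = b * a) {ι : Type} (S : Finset ι) (w : ι → G)
    (hw : ∀ i ∈ S, w i ∈ V) (hS : ¬ ℓ ∣ S.card) : IsUnit (∑ i ∈ S, ma (dl F (w i))) := by
  have hfact : Fact ℓ.Prime := ⟨hF.prime⟩
  have hch : CharP F ℓ := hF.char
  have hchA : CharP (MonoidAlgebra F G) ℓ := charP_of_injective_algebraMap' F ℓ
  have hnil : IsNilpotent (∑ i ∈ S, (ma (dl F (w i)) - 1)) := by
    apply Commute.isNilpotent_sum
    · intro i hi
      obtain ⟨k, hk⟩ := hV ⟨w i, hw i hi⟩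
      refine ⟨ℓ ^ k, ?_⟩
      have hk' : w i ^ ℓ ^ k = 1 := congrArg Subtype.val hk
      rw [sub_pow_char_pow_of_commute ℓ k (Commute.one_right _), ma_dl_pow, hk', ma_dl_one, one_pow,
        sub_self]
    · intro i j hi hj
      apply Commute.sub_left
      · apply Commute.sub_right
        · change _ * _ = _ * _
          rw [ma_dl_mul, ma_dl_mul, hab _ (hw i hi) _ (hw j hj)]
        · exact Commute.one_right _
      · exact Commute.one_left _
  have hcard : IsUnit ((S.card : MonoidAlgebra F G)) := by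
    have h1 : ((S.card : F)) ≠ 0 := by
      intro h0
      exact hS ((CharP.cast_eq_zero_iff F ℓ _).1 h0)
    have h2 : IsUnit (algebraMap F (MonoidAlgebra F G) (S.card : F)) :=
      (IsUnit.mk0 _ h1).map _
    rwa [map_natCast] at h2
  have e : ∑ i ∈ S, ma (dl F (w i)) =
      (∑ i ∈ S, (ma (dl F (w i)) - 1)) + (S.card : MonoidAlgebra F G) := by
    rw [Finset.sum_sub_distrib, Finset.sum_const, nsmul_eq_mul, mul_one, sub_add_cancel]
  rw [e]
  exact hnil.isUnit_add_right_of_commute hcard (Nat.commute_cast _ _)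

/-- the main algebraic step -/
theorem not_nil {ℓ : ℕ} (hF : GoodF ℓ F) {V : Subgroup G} (hV : IsPGroup ℓ V)
    (hab : ∀ a ∈ V, ∀ b ∈ V, a * b = b * a) {ι : Type} (S : Finset ι) (w : ι → G)
    (hw : ∀ i ∈ S, w i ∈ V) (hS : ¬ ℓ ∣ S.card) {γ z : G → F} (h0 : γ ≠ 0)
    (hγ : ∀ v ∈ V, cj v γ = γ) (hz : ma z * ma γ = (∑ i ∈ S, ma (dl F (w i))) * ma γ) (n : ℕ) :
    ma z ^ n * ma γ ≠ 0 := by
  set A := ∑ i ∈ S, ma (dl F (w i)) with hA
  have hcomm : A * ma γ = ma γ * A := by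
    rw [hA, Finset.sum_mul, Finset.mul_sum]
    refine Finset.sum_congr rfl fun i hi => ?_
    rw [← ma_mul, ← ma_mul, dl_move, hγ _ (hw i hi)]
  have hpow : ma z ^ n * ma γ = A ^ n * ma γ := by
    induction n with
    | zero => rw [pow_zero, pow_zero]
    | succ n ih =>
      rw [pow_succ, mul_assoc, hz, hcomm, ← mul_assoc, ih, mul_assoc, ← hcomm, ← mul_assoc,
        ← pow_succ]
  have hu : IsUnit A := unit_sum hF hV hab S w hw hS
  intro h
  apply h0
  apply ma_injective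
  rw [ma_zero]
  rw [hpow] at h
  exact (hu.pow n).mul_right_eq_zero.1 h

end unit

section brit

variable {F G : Type} [Field F] [Group G] [Finite G]

theorem br_iter {ℓ : ℕ} (hF : GoodF ℓ F) {P : Subgroup G} (hP : IsPGroup ℓ P) {a c : G → F}
    (ha : H66.Inv P a) (hc : H66.Inv P c) (n : ℕ) :
    H66.Inv P ((mulF a)^[n] c) ∧ br P ((mulF a)^[n] c) = (mulF (br P a))^[n] (br P c) := by
  induction n with
  | zero => exact ⟨hc, rfl⟩
  | succ n ih =>
    rw [Function.iterate_succ_apply', Function.iterate_succ_apply', ← ih.2]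
    exact ⟨ha.mulF ih.1, H66.br_mulF hF hP ha ih.1⟩

/-- a good subgroup for `b` is good for `a` if `a b = b` -/
theorem gd_of_mul {ℓ : ℕ} (hF : GoodF ℓ F) {a b : G → F} (ha : IsCl a) (hb : IsCl b)
    (h : mulF a b = b) {Q : Subgroup G} (hQ : IsPGroup ℓ Q) (hg : Gd b Q) : Gd a Q := by
  by_contra hcon
  obtain ⟨g, hg1, hg2⟩ := hg
  apply hg2
  have h0 : br Q a = 0 := by
    funext x
    by_cases hx : x ∈ Subgroup.centralizer (Q : Set G)
    · rw [H66.br_of_mem hx]
      by_contra hne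
      exact hcon ⟨x, hx, hne⟩
    · rw [H66.br_of_not_mem hx]
      rfl
  have h1 := H66.br_mulF hF hQ (H66.IsCl.inv ha Q) (H66.IsCl.inv hb Q)
  rw [h, h0, mulF_zero_left] at h1
  rw [← H66.br_of_mem (a := b) hg1, h1]
  rfl

omit [Finite G] in
theorem gd_map {C : Subgroup G} {a : G → F} {Q : Subgroup C} (h : Gd (fun t : C => a t) Q) :
    Gd a (Q.map C.subtype) := by
  obtain ⟨g, hg1, hg2⟩ := h
  refine ⟨g, ?_, hg2⟩
  rw [Subgroup.mem_centralizer_iff] at hg1 ⊢
  rintro _ ⟨q, hq, rfl⟩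
  exact congrArg Subtype.val (hg1 q hq)

end brit

end Pool.Agent.PP.K9.H97
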