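import Pool.Agent.Helper97_K9.NZA

/-!
# Squad K9, module NZR, part 2: the sum of the conjugates on the centraliser of `V`
-/

open scoped BigOperators

noncomputable section

namespace Pool.Agent.PP.K9.H97

open Pool.Agent.Helper51_AWC Pool.Agent.Helper79_WRA Pool.Agent.PP Pool.Agent.PP.KF
open Pool.Agent.PP.H75

section trace

variable {F G : Type} [Field F] [Group G] [Finite G] {C : Subgroup G} {a : G → F}

theorem cj_out (ha : ∀ c ∈ C, cj c a = a) (t : G) : cj ((t : G ⧸ C).out) a = cj t a := by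
  have h1 : ((t : G ⧸ C).out)⁻¹ * t ∈ C := by
    rw [← QuotientGroup.eq]
    exact QuotientGroup.out_eq' _
  have h2 := ha _ h1
  conv_lhs => rw [← h2, cj_cj, mul_inv_cancel_left]

/-- the sum of the conjugates -/
def tsm (C : Subgroup G) (a : G → F) : G → F := fun g => ∑ᶠ q : G ⧸ C, cj q.out a g

theorem tsm_cl (ha : ∀ c ∈ C, cj c a = a) : IsCl (tsm C a) := by
  intro x y
  unfold tsm
  rw [← finsum_comp_equiv (MulAction.toPerm y : Equiv.Perm (G ⧸ C))]
  apply finsum_congr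
  intro q
  obtain ⟨t, rfl⟩ := QuotientGroup.mk_surjective q
  change cj ((y • (t : G ⧸ C)).out) a _ = _
  have h1 : y • (t : G ⧸ C) = ((y * t : G) : G ⧸ C) := rfl
  rw [h1, cj_out ha, cj_out ha, cj, cj]
  congr 1
  group

/-- the cosets which meet `N` -/
def QN (N C : Subgroup G) : Set (G ⧸ C) := {q | ∃ t ∈ N, (t : G ⧸ C) = q}

theorem tsm_br {ℓ : ℕ} (hF : GoodF ℓ F) {V : Subgroup G} (hV : IsPGroup ℓ V) (hVC : V ≤ C)
    (ha : ∀ c ∈ C, cj c a = a)
    (hfix : ∀ t : G, (∀ v ∈ V, t⁻¹ * v * t ∈ C) → ∀ g ∈ Subgroup.centralizer (V : Set G),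
      cj t a g ≠ 0 → (t : G ⧸ C) ∈ QN (Subgroup.normalizer (V : Set G)) C)
    {g : G} (hg : g ∈ Subgroup.centralizer (V : Set G)) :
    tsm C a g = ∑ᶠ (q : G ⧸ C) (_ : q ∈ QN (Subgroup.normalizer (V : Set G)) C),
      cj q.out a g := by
  classical
  unfold tsm
  have h1 := H74.orb ℓ F F V (G ⧸ C) hF.prime hF.char hV (fun q => cj q.out a g) (by
    intro v q
    obtain ⟨t, rfl⟩ := QuotientGroup.mk_surjective q
    have h1 : v • (t : G ⧸ C) = (((v : G) * t : G) : G ⧸ C) := rfl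
    rw [h1, cj_out ha, cj_out ha, cj, cj]
    congr 1
    have h2 := Subgroup.mem_centralizer_iff.1 hg v v.2
    have h3 : (v : G)⁻¹ * g * v = g := by
      rw [mul_assoc, ← h2, inv_mul_cancel_left]
    calc ((v : G) * t)⁻¹ * g * ((v : G) * t) = t⁻¹ * ((v : G)⁻¹ * g * v) * t := by group
      _ = t⁻¹ * g * t := by rw [h3])
  refine h1.trans ?_
  apply finsum_congr
  intro q
  rw [finsum_eq_if, finsum_eq_if]
  obtain ⟨t, rfl⟩ := QuotientGroup.mk_surjective q
  have hfx : (t : G ⧸ C) ∈ MulAction.fixedPoints V (G ⧸ C) ↔ ∀ v ∈ V, t⁻¹ * v * t ∈ C := by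
    constructor
    · intro h v hv
      have h2 : (((v : G) * t : G) : G ⧸ C) = (t : G ⧸ C) := h ⟨v, hv⟩
      have h3 := QuotientGroup.eq.1 h2.symm
      rw [show t⁻¹ * v * t = t⁻¹ * (v * t) by group]
      exact h3
    · intro h v
      change (((v : G) * t : G) : G ⧸ C) = (t : G ⧸ C)
      symm
      rw [QuotientGroup.eq]
      have := h v v.2
      rwa [show t⁻¹ * (v : G) * t = t⁻¹ * (v * t) by group] at this
  by_cases hq : (t : G ⧸ C) ∈ QN (Subgroup.normalizer (V : Set G)) C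
  · rw [if_pos hq, if_pos]
    obtain ⟨n, hn, hnt⟩ := hq
    rw [← hnt]
    intro v
    change (((v : G) * n : G) : G ⧸ C) = (n : G ⧸ C)
    symm
    rw [QuotientGroup.eq]
    apply hVC
    have := (Subgroup.mem_normalizer_iff.1 (inv_mem hn) v).1 v.2
    rwa [inv_inv, mul_assoc] at this
  · rw [if_neg hq]
    by_cases hq' : (t : G ⧸ C) ∈ MulAction.fixedPoints V (G ⧸ C)
    · rw [if_pos hq']
      by_contra hne
      change cj ((t : G ⧸ C).out) a g ≠ 0 at hne
      rw [cj_out ha] at hne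
      exact hq (hfix t (hfx.1 hq') g hg hne)
    · rw [if_neg hq']

omit [Finite G] in
theorem orbit_card {T : Subgroup G} :
    (MulAction.orbit T (((1 : G) : G) : G ⧸ C)).ncard = C.relIndex T := by
  rw [← MulAction.index_stabilizer, Subgroup.relIndex]
  congr 1
  ext t
  rw [MulAction.mem_stabilizer_iff, Subgroup.mem_subgroupOf]
  change ((((t : G) * 1 : G) : G ⧸ C)) = ((1 : G) : G ⧸ C) ↔ _
  rw [mul_one, eq_comm, QuotientGroup.eq, inv_one, one_mul]

theorem nzr_core {ℓ : ℕ} (hF : GoodF ℓ F) {V : Subgroup G} (hV : IsPGroup ℓ V)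
    (hab : ∀ a ∈ V, ∀ b ∈ V, a * b = b * a) (hVC : V ≤ C)
    (hXC : Subgroup.centralizer (V : Set G) ≤ C) {B : G → F} (hB : Ix C B) {w : G} (hwV : w ∈ V)
    (hwC : ∀ c ∈ C, c * w = w * c)
    (hgood : ∀ t : G, (∀ v ∈ V, t⁻¹ * v * t ∈ C) →
      (∃ x, (∀ v ∈ V, x * (t⁻¹ * v * t) = t⁻¹ * v * t * x) ∧ B x ≠ 0) →
      ∃ c ∈ C, t * c ∈ Subgroup.normalizer (V : Set G))
    {γ : G → F} (hγ : Bx (Subgroup.centralizer (V : Set G)) γ) (h1 : mulF (br V B) γ = γ)
    (hbx : Bx (Subgroup.normalizer (V : Set G) ⊓ C) (br V B))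
    (hinx : ¬ ℓ ∣ (Subgroup.centralizer (V : Set G)).relIndex
      (Subgroup.normalizer (V : Set G) ⊓ stabF γ)) (n : ℕ) :
    ma (br V (tsm C (fun x => B (w⁻¹ * x)))) ^ n * ma γ ≠ 0 := by
  classical
  set N := Subgroup.normalizer (V : Set G) with hN
  set X := Subgroup.centralizer (V : Set G) with hX
  have hXN : X ≤ N := by
    intro g hg
    rw [hN, Subgroup.mem_normalizer_iff]
    intro v
    have h1 := Subgroup.mem_centralizer_iff.1 hg
    constructor
    · intro hv
      rw [← h1 v hv, mul_inv_cancel_right]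
      exact hv
    · intro hv
      have h2 := h1 _ hv
      have h3 : g * v = g * (g * v * g⁻¹) := by
        rw [← h2]
        group
      rw [mul_left_cancel h3]
      exact hv
  have hNX : N ≤ Subgroup.normalizer (X : Set G) := by
    intro g hg
    rw [Subgroup.mem_normalizer_iff]
    have key : ∀ g ∈ N, ∀ x ∈ X, g * x * g⁻¹ ∈ X := by
      intro g hg x hx
      rw [hX, Subgroup.mem_centralizer_iff] at hx ⊢
      intro v hv
      have h2 : g⁻¹ * v * g ∈ V := by
        have := (Subgroup.mem_normalizer_iff.1 (inv_mem hg) v).1 hv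
        rwa [inv_inv] at this
      have h3 := hx _ h2
      calc v * (g * x * g⁻¹) = g * (g⁻¹ * v * g * x) * g⁻¹ := by group
        _ = g * (x * (g⁻¹ * v * g)) * g⁻¹ := by rw [h3]
        _ = g * x * g⁻¹ * v := by group
    intro x
    constructor
    · exact key g hg x
    · intro h
      have := key g⁻¹ (inv_mem hg) _ h
      have e : g⁻¹ * (g * x * g⁻¹) * g⁻¹⁻¹ = x := by group
      rwa [e] at this
  have hVX : V ≤ X := by
    intro v hv
    rw [hX, Subgroup.mem_centralizer_iff]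
    intro x hx
    exact hab x hx v hv
  set bV := br V B with hbV
  have hbVX : ∀ x, x ∉ X → bV x = 0 := fun x hx => H66.br_of_not_mem hx
  have hbI : Ix X bV := by
    refine ⟨hbVX, ?_, ?_⟩
    · intro x y
      exact hbx.blk.1.1 ⟨x, ⟨hXN x.2, hXC x.2⟩⟩ ⟨y, ⟨hXN y.2, hXC y.2⟩⟩
    · rw [← mulF_res X bV hbVX, hbx.mul]
  -- the representatives
  have hrep : ∀ q : G ⧸ C, ∃ t : G, q ∈ QN N C → t ∈ N ∧ (t : G ⧸ C) = q := by
    intro q
    by_cases hq : q ∈ QN N C
    · obtain ⟨t, ht, htq⟩ := hq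
      exact ⟨t, fun _ => ⟨ht, htq⟩⟩
    · exact ⟨1, fun h => absurd h hq⟩
  choose rep hrep using hrep
  have hfinq : Finite (G ⧸ C) := inferInstance
  have := Fintype.ofFinite (G ⧸ C)
  set a : G → F := fun x => B (w⁻¹ * x) with ha
  have haC : ∀ c ∈ C, cj c a = a := by
    intro c hc
    funext x
    change B (w⁻¹ * (c⁻¹ * x * c)) = B (w⁻¹ * x)
    have h2 := (cj_eq_iff c B).1 (hB.inv hc) (w⁻¹ * (c⁻¹ * x * c))
    rw [← h2]
    congr 1
    have h3 := hwC c hc
    have h4 : c * w⁻¹ = w⁻¹ * c := (show Commute c w from h3).inv_right.eq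
    calc c * (w⁻¹ * (c⁻¹ * x * c)) * c⁻¹ = (c * w⁻¹) * (c⁻¹ * x) := by group
      _ = w⁻¹ * x := by rw [h4]; group
  have hsum : br V (tsm C a) =
      ∑ q ∈ Finset.univ.filter (fun q => q ∈ QN N C), cj (rep q) (mulF (dl F w) bV) := by
    funext g
    rw [Finset.sum_apply]
    have hcj : ∀ q ∈ QN N C, ∀ x, (rep q)⁻¹ * x * rep q ∈ X ↔ x ∈ X := fun q hq x =>
      conj_mem_iff (hNX (hrep q hq).1) x
    by_cases hg : g ∈ X
    · rw [H66.br_of_mem hg, tsm_br hF hV hVC haC _ hg, finsum_eq_sum_of_fintype,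
        Finset.sum_filter]
      · refine Finset.sum_congr rfl fun q _ => ?_
        rw [finsum_eq_if]
        by_cases hq : q ∈ QN N C
        · rw [if_pos hq, if_pos hq]
          have h2 := (hrep q hq).2
          conv_lhs => rw [← h2, cj_out haC]
          rw [cj, cj, mulF_dl_left, ha]
          change B _ = bV _
          rw [hbV, H66.br_of_mem]
          exact X.mul_mem (X.inv_mem (hVX hwV)) ((hcj q hq g).2 hg)
        · rw [if_neg hq, if_neg hq]
      · intro t ht g hg hne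
        obtain ⟨c, hc, htc⟩ := hgood t ht (by
          refine ⟨w⁻¹ * (t⁻¹ * g * t), ?_, hne⟩
          intro v hv
          have h2 := Subgroup.mem_centralizer_iff.1 hg v hv
          have h3 := hwC _ (ht v hv)
          have h4 : t⁻¹ * v * t * w⁻¹ = w⁻¹ * (t⁻¹ * v * t) :=
            (show Commute (t⁻¹ * v * t) w from h3).inv_right.eq
          calc w⁻¹ * (t⁻¹ * g * t) * (t⁻¹ * v * t) = w⁻¹ * (t⁻¹ * (g * v) * t) := by group
            _ = w⁻¹ * (t⁻¹ * v * t) * (t⁻¹ * g * t) := by rw [← h2]; group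
            _ = t⁻¹ * v * t * w⁻¹ * (t⁻¹ * g * t) := by rw [h4]
            _ = t⁻¹ * v * t * (w⁻¹ * (t⁻¹ * g * t)) := by group)
        refine ⟨t * c, htc, ?_⟩
        symm
        rw [QuotientGroup.eq, inv_mul_cancel_left]
        exact hc
    · rw [H66.br_of_not_mem hg]
      symm
      apply Finset.sum_eq_zero
      intro q hq
      rw [Finset.mem_filter] at hq
      rw [cj, mulF_dl_left]
      apply hbVX
      intro h
      apply hg
      rw [← hcj q hq.2]
      have := X.mul_mem (hVX hwV) h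
      rwa [mul_inv_cancel_left] at this
  set S : Finset (G ⧸ C) := Finset.univ.filter
    (fun q => q ∈ QN N C ∧ mulF (cj (rep q) bV) γ = γ) with hS
  have hwS : ∀ q ∈ QN N C, rep q * w * (rep q)⁻¹ ∈ V := fun q hq =>
    (Subgroup.mem_normalizer_iff.1 (hrep q hq).1 w).1 hwV
  have hzγ : ma (br V (tsm C a)) * ma γ =
      (∑ q ∈ S, ma (dl F (rep q * w * (rep q)⁻¹))) * ma γ := by
    have h8 : ∑ q ∈ S, ma (dl F (rep q * w * (rep q)⁻¹)) * ma γ =
        ∑ q ∈ Finset.univ.filter (fun q => q ∈ QN N C),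
          if mulF (cj (rep q) bV) γ = γ then ma (dl F (rep q * w * (rep q)⁻¹)) * ma γ
            else 0 := by
      rw [← Finset.sum_filter, Finset.filter_filter]
    rw [hsum, ma_sum, Finset.sum_mul, Finset.sum_mul, h8]
    refine Finset.sum_congr rfl fun q hq => ?_
    rw [Finset.mem_filter] at hq
    have h2 : cj (rep q) (dl F w) = dl F (rep q * w * (rep q)⁻¹) := by
      funext x
      rw [cj]
      unfold dl
      have h3 : ((rep q)⁻¹ * x * rep q = w) ↔ (x = rep q * w * (rep q)⁻¹) := by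
        constructor
        · rintro rfl
          group
        · rintro rfl
          group
      by_cases h4 : (rep q)⁻¹ * x * rep q = w
      · rw [if_pos h4, if_pos (h3.1 h4)]
      · rw [if_neg h4, if_neg (fun h => h4 (h3.2 h))]
    rw [cj_mulF, h2, ma_mul, mul_assoc, ← ma_mul]
    by_cases h5 : mulF (cj (rep q) bV) γ = γ
    · rw [if_pos h5, h5]
    · rw [if_neg h5]
      have h6 := hbI.cj (hNX (hrep q hq.2).1)
      rcases hγ.dich' h6 with h7 | h7
      · exact absurd (by rw [h6.comm hγ.ix, h7]) h5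
      · rw [h6.comm hγ.ix, h7, ma_zero, mul_zero]
  -- the number of summands
  have hScard : S.card = C.relIndex (N ⊓ stabF γ) := by
    rw [← orbit_card, ← Set.ncard_coe_finset]
    congr 1
    ext q
    rw [Finset.mem_coe, hS, Finset.mem_filter, MulAction.mem_orbit_iff]
    constructor
    · rintro ⟨-, hq, h2⟩
      obtain ⟨hr1, hr2⟩ := hrep q hq
      have h3 : mulF bV (cj (rep q)⁻¹ γ) = cj (rep q)⁻¹ γ := by
        have := congrArg (cj (rep q)⁻¹) h2
        rwa [cj_mulF, cj_inv_cj] at this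
      obtain ⟨m, hm, hm'⟩ := orb_main (N := N ⊓ C) (X := X) (le_inf hXN hXC)
        (inf_le_left.trans hNX) hbx hγ (hγ.cj (hNX (inv_mem hr1))) h1 h3
      have h4 : cj (rep q * m) γ = γ := by
        rw [← cj_cj, ← hm', cj_cj_inv]
      refine ⟨⟨rep q * m, N.mul_mem hr1 hm.1, (cj_eq_iff _ _).1 h4⟩, ?_⟩
      change ((rep q * m * 1 : G) : G ⧸ C) = q
      rw [mul_one, ← hr2]
      symm
      rw [QuotientGroup.eq, hr2, inv_mul_cancel_left]
      exact hm.2
    · rintro ⟨⟨t, ht1, ht2⟩, rfl⟩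
      have h0 : ((⟨t, ht1, ht2⟩ : (N ⊓ stabF γ : Subgroup G)) • ((1 : G) : G ⧸ C)) =
          ((t : G) : G ⧸ C) := by
        change ((t * 1 : G) : G ⧸ C) = _
        rw [mul_one]
      rw [h0]
      have hq : ((t : G) : G ⧸ C) ∈ QN N C := ⟨t, ht1, rfl⟩
      refine ⟨Finset.mem_univ _, hq, ?_⟩
      obtain ⟨hr1, hr2⟩ := hrep _ hq
      have h5 : (rep (t : G ⧸ C))⁻¹ * t ∈ N ⊓ C :=
        ⟨N.mul_mem (inv_mem hr1) ht1, QuotientGroup.eq.1 hr2⟩
      have h6 : cj (rep (t : G ⧸ C)) bV = cj t bV := by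
        have := hbx.ix.inv h5
        conv_lhs => rw [← this, cj_cj, mul_inv_cancel_left]
      have h7 : cj t γ = γ := (cj_eq_iff _ _).2 ht2
      rw [h6]
      conv_lhs => rw [← h7, ← cj_mulF, h1]
      exact h7
  have hScard' : ¬ ℓ ∣ S.card := by
    rw [hScard]
    intro h
    exact hinx (h.trans (Subgroup.relIndex_dvd_of_le_left _ hXC))
  exact not_nil hF hV hab S (fun q => rep q * w * (rep q)⁻¹)
    (fun q hq => hwS q (Finset.mem_filter.1 hq).2.1) hScard' hγ.ne
    (fun v hv => hγ.ix.inv (hVX hv)) hzγ n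

end trace

end Pool.Agent.PP.K9.H97
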