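import Pool.Agent.Helper57_K9.Stmts
import Pool.Agent.Helper50_PP.Dic
import Pool.Agent.Helper75_PP.Local
import Pool.Agent.Helper46_PP.Alg

/-!
# Squad K9: conjugates of blocks of a subgroup, as functions on the whole group
-/

open scoped BigOperators

noncomputable section

namespace Pool.Agent.PP.K9.H97

open Pool.Agent.Helper51_AWC Pool.Agent.Helper79_WRA Pool.Agent.PP Pool.Agent.PP.KF
open Pool.Agent.PP.H75

section conj

variable {F G : Type} [Field F] [Group G] [Finite G]

/-- An idempotent of the centre of `F X`, as a function on `G`. -/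
structure Ix (X : Subgroup G) (b : G → F) : Prop where
  supp : ∀ x, x ∉ X → b x = 0
  idem : IsIdem (fun t : X => b t)

/-- A block of `X`, as a function on `G`. -/
structure Bx (X : Subgroup G) (b : G → F) : Prop where
  supp : ∀ x, x ∉ X → b x = 0
  blk : IsBlk (fun t : X => b t)

variable {X : Subgroup G} {b c : G → F}

omit [Finite G] in
theorem Bx.ix (h : Bx X b) : Ix X b := ⟨h.supp, h.blk.1⟩

theorem Ix.mul (h : Ix X b) : mulF b b = b := by
  apply eq_of_res (mulF_supp X h.supp h.supp) h.supp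
  rw [mulF_res X b h.supp]
  exact h.idem.2

theorem Ix.inv (h : Ix X b) {n : G} (hn : n ∈ X) : cj n b = b := by
  rw [cj_eq_iff]
  intro x
  by_cases hx : x ∈ X
  · exact h.idem.1 ⟨x, hx⟩ ⟨n, hn⟩
  · rw [h.supp x hx, h.supp]
    intro h'
    apply hx
    have := X.mul_mem (X.mul_mem (X.inv_mem hn) h') hn
    have e : n⁻¹ * (n * x * n⁻¹) * n = x := by group
    rwa [e] at this

omit [Finite G] in
theorem conj_mem_iff {g : G} (hg : g ∈ Subgroup.normalizer (X : Set G)) (x : G) :
    g⁻¹ * x * g ∈ X ↔ x ∈ X := by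
  have := Subgroup.mem_normalizer_iff.1 hg (g⁻¹ * x * g)
  rw [show g * (g⁻¹ * x * g) * g⁻¹ = x by group] at this
  exact this

theorem Ix.cj (h : Ix X b) {g : G} (hg : g ∈ Subgroup.normalizer (X : Set G)) :
    Ix X (cj g b) := by
  have hs : ∀ x, x ∉ X → H75.cj g b x = 0 := by
    intro x hx
    apply h.supp
    rwa [conj_mem_iff hg]
  refine ⟨hs, ?_, ?_⟩
  · intro x y
    change b (g⁻¹ * ((y : G) * x * (y : G)⁻¹) * g) = b (g⁻¹ * x * g)
    have hy : g⁻¹ * (y : G) * g ∈ X := (conj_mem_iff hg _).2 y.2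
    have h2 := (cj_eq_iff _ _).1 (h.inv hy) (g⁻¹ * x * g)
    rw [← h2]
    congr 1
    group
  · rw [← mulF_res X (H75.cj g b) hs, ← cj_mulF, h.mul]

theorem Bx.mul (h : Bx X b) : mulF b b = b := h.ix.mul

omit [Finite G] in
theorem Bx.ne (h : Bx X b) : b ≠ 0 := by
  intro h0
  apply h.blk.2.1
  rw [h0]
  rfl

theorem Bx.dich' (h : Bx X b) (hc : Ix X c) : mulF b c = b ∨ mulF b c = 0 := by
  rcases h.blk.2.2 _ hc.idem with h2 | h2
  · left
    apply eq_of_res (mulF_supp X h.supp hc.supp) h.supp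
    rw [mulF_res X _ h.supp]
    exact h2
  · right
    apply eq_of_res (mulF_supp X h.supp hc.supp) (fun _ _ => rfl)
    rw [mulF_res X _ h.supp]
    exact h2

theorem Ix.comm (h : Ix X b) (hc : Ix X c) : mulF b c = mulF c b :=
  mulF_comm_of (K := X) h.supp (fun _ hk => hc.inv hk)

theorem Bx.cj (h : Bx X b) {g : G} (hg : g ∈ Subgroup.normalizer (X : Set G)) :
    Bx X (cj g b) := by
  have h1 := h.ix.cj hg
  refine ⟨h1.supp, h1.idem, ?_, ?_⟩
  · intro h0
    apply h.ne
    have h2 : H75.cj g b = 0 := eq_of_res h1.supp (fun _ _ => rfl) h0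
    have h3 := congrArg (H75.cj g⁻¹) h2
    rw [cj_inv_cj, cj_zero] at h3
    exact h3
  · intro a ha
    have hax : Ix X (H75.ext0 X a) := by
      refine ⟨ext0_supp X a, ?_⟩
      have : (fun t : X => H75.ext0 X a t) = a := funext (ext0_apply X a)
      rw [this]
      exact ha
    have h2 := hax.cj (inv_mem hg)
    have h4 : mulF (fun t : X => H75.cj g b t) a =
        fun t : X => mulF (H75.cj g b) (H75.ext0 X a) t := by
      rw [mulF_res X _ h1.supp]
      congr 1
      exact (funext (ext0_apply X a)).symm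
    rw [h4]
    have h5 : mulF (H75.cj g b) (H75.ext0 X a) =
        H75.cj g (mulF b (H75.cj g⁻¹ (H75.ext0 X a))) := by
      rw [cj_mulF, cj_cj_inv]
    rcases h.dich' h2 with h3 | h3
    · left
      rw [h5, h3]
    · right
      rw [h5, h3, cj_zero]
      rfl

theorem Bx.dich (h : Bx X b) (hc : Bx X c) : b = c ∨ mulF b c = 0 := by
  rcases h.dich' hc.ix with h1 | h1
  · rcases hc.dich' h.ix with h2 | h2
    · left
      rw [← h1, h.ix.comm hc.ix, h2]
    · exfalso
      apply h.ne
      rw [← h1, h.ix.comm hc.ix, h2]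
  · right
    exact h1

end conj

end Pool.Agent.PP.K9.H97
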